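import Pool.Agent.Helper7.Bridge2
import Pool.Agent.Helper7.U.UF
import Pool.Agent.Helper7.W4.Defs

/-!
From the algebraicity of the determinant at one place to a Grothendieck Weil class.
-/

namespace Pool.Agent.Helper7

open Module NumberField

section E2

variable {κ : Type} [Fintype κ] [DecidableEq κ] {ϖ : ℂ} {P : PData κ ϖ} {K : Type} [Field K]
  [NumberField K] (F : UF P K 4)

/-- the determinant at a place -/
noncomputable def detF (σ : K →+* ℂ) : (κ → ℂ) [⋀^Fin 4]→ₗ[ℂ] ℂ :=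
  (Matrix.detRowAlternating (R := ℂ) (n := Fin 4)).compLinearMap
    (LinearMap.pi fun j => F.co σ j)

lemma detF_apply (σ : K →+* ℂ) (v : Fin 4 → (κ → ℂ)) :
    detF F σ v = Matrix.det (fun i j => F.co σ j (v i)) := rfl

lemma alg_drb {f : (κ → ℂ) →ₗ[ℂ] (κ → ℂ)} (hf : IsDRB P P f) (v : κ → ℂ)
    (hv : ∀ j, IsAlgebraic ℚ (v j)) (j : κ) : IsAlgebraic ℚ (f v j) := by
  have h1 : v = ∑ i, v i • (Pi.single i (1 : ℂ) : κ → ℂ) := by
    funext j; simp [Finset.sum_apply, Pi.single_apply]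
  rw [h1, map_sum, Finset.sum_apply]
  refine isAlg_sum _ _ fun i _ => ?_
  rw [map_smul, Pi.smul_apply, smul_eq_mul]
  exact (hv i).mul (hf.alg i j)

lemma alg_psi (u v : κ → ℂ) (hu : ∀ j, IsAlgebraic ℚ (u j)) (hv : ∀ j, IsAlgebraic ℚ (v j)) :
    IsAlgebraic ℚ (P.ψ u v) := by
  have h1 : ∀ w : κ → ℂ, w = ∑ i, w i • (Pi.single i (1 : ℂ) : κ → ℂ) := fun w => by
    funext j; simp [Finset.sum_apply, Pi.single_apply]
  rw [h1 u, map_sum, LinearMap.sum_apply]
  refine isAlg_sum _ _ fun i _ => ?_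
  rw [map_smul, LinearMap.smul_apply, smul_eq_mul]
  refine (hu i).mul ?_
  rw [h1 v, map_sum]
  refine isAlg_sum _ _ fun j _ => ?_
  rw [map_smul, smul_eq_mul]
  exact (hv j).mul (P.hψalg i j)

lemma alg_projU (σ : K →+* ℂ) (v : κ → ℂ) (hv : ∀ j, IsAlgebraic ℚ (v j)) (j : κ) :
    IsAlgebraic ℚ (proj F.ρ σ v j) := by
  have h1 : proj F.ρ σ v j = ∑ b, σ (dbas K b) * F.ρ (bas K b) v j := by
    rw [proj, LinearMap.sum_apply, Finset.sum_apply]
    rfl
  rw [h1]
  exact isAlg_sum _ _ fun b _ => (isAlg_emb _ _).mul (alg_drb (F.hρ _) v hv j)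

/-- the Gram matrix of the adapted vectors is the period times an algebraic matrix -/
lemma psi_e_alg (σ τ : K →+* ℂ) (i j : Fin 4) :
    ∃ a : ℂ, IsAlgebraic ℚ a ∧ P.ψ (F.e σ i) (F.e τ j) = ϖ * a := by
  have h1 : ∀ (σ : K →+* ℂ) (i : Fin 4), F.e σ i =
      ∑ b, σ (dbas K b) • F.ρ (bas K b) (F.lam i) := by
    intro σ i
    rw [F.e_eq, proj, LinearMap.sum_apply]
    rfl
  have h2 : ∀ b c, ∃ q : ℚ, P.ψ (F.ρ (bas K b) (F.lam i)) (F.ρ (bas K c) (F.lam j)) = ϖ * q :=
    fun b c => P.hψQ _ ((F.hρ _).rat _ (F.lam_rat i)) _ ((F.hρ _).rat _ (F.lam_rat j))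
  choose q hq using h2
  refine ⟨∑ b, ∑ c, σ (dbas K b) * (τ (dbas K c) * (q b c : ℂ)), ?_, ?_⟩
  · exact isAlg_sum _ _ fun b _ => isAlg_sum _ _ fun c _ =>
      (isAlg_emb _ _).mul ((isAlg_emb _ _).mul (isAlgebraic_ratCast ℚ _))
  · rw [h1 σ i, h1 τ j, map_sum P.ψ, LinearMap.sum_apply, Finset.mul_sum]
    refine Finset.sum_congr rfl fun b _ => ?_
    rw [map_smul, LinearMap.smul_apply, map_sum, smul_eq_mul, Finset.mul_sum, Finset.mul_sum]
    refine Finset.sum_congr rfl fun c _ => ?_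
    rw [map_smul, smul_eq_mul, hq]
    ring

lemma isAlg_det {m : ℕ} (M : Matrix (Fin m) (Fin m) ℂ) (h : ∀ i j, IsAlgebraic ℚ (M i j)) :
    IsAlgebraic ℚ M.det := by
  rw [Matrix.det_apply']
  refine isAlg_sum _ _ fun σ _ => ?_
  refine IsAlgebraic.mul ?_ (isAlg_prod _ _ fun i _ => h _ _)
  exact isAlgebraic_intCast _

/-- the Gram determinant does not vanish -/
lemma gram4_det (σ : K →+* ℂ) : (Matrix.of fun i j : Fin 4 =>
    P.ψ (F.e σ i) (F.e (ComplexEmbedding.conjugate σ) j)).det ≠ 0 := by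
  classical
  intro h0
  obtain ⟨v, hv, hv0⟩ := Matrix.exists_vecMul_eq_zero_iff.mpr h0
  have h1 : ∑ a, v a • F.e σ a = 0 := by
    apply P.hψnd
    intro w
    rw [F.hsum w, map_sum]
    refine Finset.sum_eq_zero fun τ _ => ?_
    rw [map_sum]
    refine Finset.sum_eq_zero fun b _ => ?_
    rw [map_smul, map_sum, LinearMap.sum_apply]
    by_cases hτ : τ = ComplexEmbedding.conjugate σ
    · subst hτ
      have h2 := congrFun hv0 b
      rw [Matrix.vecMul, dotProduct] at h2
      have h3 : ∑ a, P.ψ (v a • F.e σ a) (F.e (ComplexEmbedding.conjugate σ) b) = 0 := by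
        rw [Pi.zero_apply] at h2
        rw [← h2]
        refine Finset.sum_congr rfl fun a _ => ?_
        rw [map_smul, LinearMap.smul_apply, smul_eq_mul]
        rfl
      rw [h3, smul_zero]
    · rw [Finset.sum_eq_zero (fun a _ => by
        rw [map_smul, LinearMap.smul_apply, F.psi_e _ _ _ _ hτ, smul_zero]), smul_zero]
  apply hv
  funext a
  have h2 := congrArg (F.co σ a) h1
  rw [map_sum, map_zero, Finset.sum_eq_single a] at h2
  · rw [map_smul, F.co_e, if_pos ⟨rfl, rfl⟩, smul_eq_mul, mul_one] at h2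
    exact h2
  · intro b _ hb
    rw [map_smul, F.co_e, if_neg (fun h => hb h.2.symm), smul_zero]
  · intro h; exact absurd (Finset.mem_univ _) h

lemma gram_factor (σ : K →+* ℂ) (u v : Fin 4 → (κ → ℂ)) :
    (Matrix.of fun i j : Fin 4 => P.ψ (proj F.ρ σ (u i))
      (proj F.ρ (ComplexEmbedding.conjugate σ) (v j))).det =
    detF F σ u * (Matrix.of fun i j : Fin 4 =>
      P.ψ (F.e σ i) (F.e (ComplexEmbedding.conjugate σ) j)).det *
      detF F (ComplexEmbedding.conjugate σ) v := by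
  have h1 : (Matrix.of fun i j : Fin 4 => P.ψ (proj F.ρ σ (u i))
      (proj F.ρ (ComplexEmbedding.conjugate σ) (v j))) =
      (Matrix.of fun i j : Fin 4 => F.co σ j (u i)) * (Matrix.of fun i j : Fin 4 =>
      P.ψ (F.e σ i) (F.e (ComplexEmbedding.conjugate σ) j)) *
      (Matrix.of fun i j : Fin 4 => F.co (ComplexEmbedding.conjugate σ) j (v i)).transpose := by
    ext i j
    rw [Matrix.mul_apply, Matrix.of_apply, F.proj_eq, F.proj_eq, map_sum]
    refine Finset.sum_congr rfl fun b _ => ?_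
    rw [map_smul, map_sum, LinearMap.sum_apply, Matrix.mul_apply, Matrix.transpose_apply,
      Matrix.of_apply, smul_eq_mul, mul_comm]
    congr 1
    refine Finset.sum_congr rfl fun a _ => ?_
    rw [map_smul, LinearMap.smul_apply, smul_eq_mul, Matrix.of_apply, Matrix.of_apply]
  rw [h1, Matrix.det_mul, Matrix.det_mul, Matrix.det_transpose]
  rfl

lemma detF_e (σ : K →+* ℂ) : detF F σ (fun j => F.e σ j) = 1 := by
  classical
  rw [detF_apply]
  have h1 : (fun i j => F.co σ j (F.e σ i) : Fin 4 → Fin 4 → ℂ) =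
      (1 : Matrix (Fin 4) (Fin 4) ℂ) := by
    funext i j
    rw [F.co_e, Matrix.one_apply]
    by_cases h : j = i
    · subst h; simp
    · rw [if_neg (fun h' => h h'.2), if_neg (fun h' => h h'.symm)]
  rw [h1]
  exact Matrix.det_one

lemma exists_alg_ne (σ : K →+* ℂ) : ∃ u : Fin 4 → (κ → ℂ), (∀ r j, IsAlgebraic ℚ (u r j)) ∧
    detF F σ u ≠ 0 := by
  by_contra hcon
  push Not at hcon
  have h1 : (detF F σ : MultilinearMap ℂ (fun _ : Fin 4 => (κ → ℂ)) ℂ) = 0 := by
    refine Basis.ext_multilinear (fun _ => Pi.basisFun ℂ κ) fun v => ?_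
    refine hcon _ fun r j => ?_
    rw [Pi.basisFun_apply]
    by_cases h : j = v r
    · subst h; rw [Pi.single_eq_same]; exact isAlgebraic_one
    · rw [Pi.single_eq_of_ne h]; exact isAlgebraic_zero
  have h2 := congrArg (fun f => f (fun j => F.e σ j)) h1
  have h3 : detF F σ (fun j => F.e σ j) = 0 := h2
  rw [detF_e] at h3
  exact one_ne_zero h3

/-- E2a: the Gram determinant (`ψ` pairs the places `σ` and `conj σ`). -/
theorem detF_conj (hϖ : ϖ ≠ 0) (σ : K →+* ℂ) (h : ∀ v : Fin 4 → (κ → ℂ),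
      (∀ r j, IsAlgebraic ℚ (v r j)) → IsAlgebraic ℚ (ϖ ^ 2 * detF F σ v)) :
    ∀ v : Fin 4 → (κ → ℂ), (∀ r j, IsAlgebraic ℚ (v r j)) →
      IsAlgebraic ℚ (ϖ ^ 2 * detF F (ComplexEmbedding.conjugate σ) v) := by
  intro v hv
  obtain ⟨u, hu, hu0⟩ := exists_alg_ne F σ
  have h1 := gram_factor F σ u v
  have h2 : ∀ i j, ∃ a : ℂ, IsAlgebraic ℚ a ∧
      P.ψ (F.e σ i) (F.e (ComplexEmbedding.conjugate σ) j) = ϖ * a := fun i j =>
    psi_e_alg F σ _ i j
  choose a ha hae using h2
  have h3 : (Matrix.of fun i j : Fin 4 =>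
      P.ψ (F.e σ i) (F.e (ComplexEmbedding.conjugate σ) j)) = ϖ • Matrix.of a := by
    ext i j
    rw [Matrix.of_apply, hae]
    rfl
  have h4 : (Matrix.of fun i j : Fin 4 =>
      P.ψ (F.e σ i) (F.e (ComplexEmbedding.conjugate σ) j)).det = ϖ ^ 4 * (Matrix.of a).det := by
    rw [h3, Matrix.det_smul, Fintype.card_fin]
  have h5 : (Matrix.of a).det ≠ 0 := by
    intro h0
    apply gram4_det F σ
    rw [h4, h0, mul_zero]
  have h6 : IsAlgebraic ℚ (Matrix.of a).det := isAlg_det _ fun i j => ha i j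
  have h7 : IsAlgebraic ℚ (Matrix.of fun i j : Fin 4 => P.ψ (proj F.ρ σ (u i))
      (proj F.ρ (ComplexEmbedding.conjugate σ) (v j))).det :=
    isAlg_det _ fun i j => alg_psi _ _ (alg_projU F σ _ (hu i)) (alg_projU F _ _ (hv j))
  have h8 : ϖ ^ 2 * detF F (ComplexEmbedding.conjugate σ) v =
      (Matrix.of fun i j : Fin 4 => P.ψ (proj F.ρ σ (u i))
      (proj F.ρ (ComplexEmbedding.conjugate σ) (v j))).det *
        ((ϖ ^ 2 * detF F σ u) * (Matrix.of a).det)⁻¹ := by
    rw [h1, h4]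
    field_simp
  rw [h8]
  exact h7.mul (((h u hu).mul h6).inv)

end E2

end Pool.Agent.Helper7

namespace Pool.Agent.GPC

open Module NumberField Pool.Agent.Helper7

/-- E2b: a Grothendieck Weil class. -/
theorem exists_grWeil (A : AbVar) (K : Type) [Field K] [NumberField K]
    (F : UF (pData A) K 4) (x : K) (J : A.H1 → A.H1) (hJ : ∀ v, F.ρ x v = J v) (σ : K →+* ℂ)
    (hσ : ∀ σ', σ' = σ ∨ σ' = ComplexEmbedding.conjugate σ)
    (hσ' : ComplexEmbedding.conjugate σ ≠ σ)
    (h : ∀ v : Fin 4 → A.H1, (∀ r, A.IsDeRham (v r)) →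
      IsAlgebraic ℚ ((2 * Real.pi * Complex.I) ^ 2 * detF F σ v)) :
    ∃ w : A.H1 [⋀^Fin 4]→ₗ[ℂ] ℂ, w ≠ 0 ∧ A.IsGrWeil J w := by
  classical
  have hϖ : (2 * Real.pi * Complex.I : ℂ) ≠ 0 := Complex.two_pi_I_ne_zero
  have hconj := detF_conj F hϖ σ h
  -- the sum over the two embeddings
  have hsum : ∀ f : (K →+* ℂ) → ℂ, f σ + f (ComplexEmbedding.conjugate σ) = ∑ τ, f τ := by
    intro f
    have h1 : (Finset.univ : Finset (K →+* ℂ)) = {σ, ComplexEmbedding.conjugate σ} := by
      ext τ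
      simp only [Finset.mem_univ, Finset.mem_insert, Finset.mem_singleton, true_iff]
      exact hσ τ
    rw [h1, Finset.sum_pair (Ne.symm hσ')]
  -- the values on rational vectors
  have hval : ∀ (τ : K →+* ℂ) (y : Fin 4 → Fin 4 → K), detF F τ (fun i => F.vec (y i)) =
      τ (Matrix.det (Matrix.of y)) := by
    intro τ y
    rw [detF_apply, RingHom.map_det]
    congr 1
    ext i j
    rw [RingHom.mapMatrix_apply, Matrix.map_apply, Matrix.of_apply]
    exact F.coK τ (y i) j
  refine ⟨((2 * Real.pi * Complex.I : ℂ) ^ 2) •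
    (detF F σ + detF F (ComplexEmbedding.conjugate σ)), ?_, ?_, ?_, ?_⟩
  · intro h0
    have h1 := congrArg (fun g => g (fun i => F.vec (Pi.single i 1))) h0
    simp only [AlternatingMap.smul_apply, AlternatingMap.add_apply, AlternatingMap.zero_apply,
      hval] at h1
    have h2 : Matrix.det (Matrix.of fun i : Fin 4 => (Pi.single i 1 : Fin 4 → K)) = 1 := by
      have h3 : (Matrix.of fun i : Fin 4 => (Pi.single i 1 : Fin 4 → K)) = 1 := by
        ext i j
        rw [Matrix.of_apply, Matrix.one_apply, Pi.single_apply]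
        by_cases h : i = j
        · subst h; simp
        · rw [if_neg h, if_neg (fun h' => h h'.symm)]
      rw [h3, Matrix.det_one]
    rw [h2, map_one, map_one, smul_eq_mul] at h1
    rcases mul_eq_zero.mp h1 with h3 | h3
    · exact hϖ (pow_eq_zero_iff (by norm_num) |>.mp h3)
    · norm_num at h3
  · intro v r s
    have h1 : ∀ (τ : K →+* ℂ) (r : Fin 4), detF F τ (Function.update v r (J (v r))) =
        τ x * detF F τ v := by
      intro τ r
      rw [detF_apply, detF_apply]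
      have h2 : (fun i j => F.co τ j (Function.update v r (J (v r)) i) : Fin 4 → Fin 4 → ℂ) =
          Matrix.updateRow (fun i j => F.co τ j (v i)) r (τ x • fun j => F.co τ j (v r)) := by
        funext i j
        by_cases hi : i = r
        · subst hi
          rw [Function.update_self, Matrix.updateRow_self, ← hJ, Pi.smul_apply, smul_eq_mul]
          have h3 : F.co τ j (F.ρ x (v i)) = τ x * F.co τ j (v i) := by
            have h4 := F.ext_e (F.co τ j ∘ₗ F.ρ x) (τ x • F.co τ j) (fun σ' j' => by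
              rw [LinearMap.comp_apply, F.rho_e, map_smul, LinearMap.smul_apply, F.co_e]
              by_cases hc : τ = σ' ∧ j = j'
              · rw [if_pos hc, hc.1]
              · rw [if_neg hc, smul_zero, smul_zero]) (v i)
            exact h4
          exact h3
        · rw [Function.update_of_ne hi, Matrix.updateRow_ne hi]
      rw [h2]
      have h5 := Matrix.det_updateRow_smul (fun i j => F.co τ j (v i)) r (τ x)
        (fun j => F.co τ j (v r))
      rw [h5, Matrix.updateRow_eq_self]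
    simp only [AlternatingMap.smul_apply, AlternatingMap.add_apply, h1]
  · intro v hv
    have h1 : ∀ r, ∃ y, F.vec y = v r := fun r =>
      F.exists_vec (v r) ((mem_pData_Q A (v r)).mpr (hv r))
    choose y hy using h1
    have h2 : v = fun i => F.vec (y i) := funext fun i => (hy i).symm
    refine ⟨Algebra.trace ℚ K (Matrix.det (Matrix.of y)), ?_⟩
    rw [h2, AlternatingMap.smul_apply, AlternatingMap.add_apply, hval, hval, smul_eq_mul,
      hsum (fun τ => τ (Matrix.det (Matrix.of y))), sum_emb]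
  · intro v hv
    rw [AlternatingMap.smul_apply, AlternatingMap.add_apply, smul_eq_mul, mul_add]
    exact (h v hv).add (hconj v hv)

end Pool.Agent.GPC
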